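import Pool.Agent.H37.CTN.Stmts
import Pool.Agent.H12.CND.LSP

/-!
# Row DF1 of board ctn (MP_b57703): derivatives of elements fixed by a wild group
-/

set_option autoImplicit false

namespace Pool.CND

open Finset Polynomial

namespace DF1

/-- order of a product -/
private lemma ord_prod {k L : Type} [Field k] [Field L] [Algebra k L] (P : Place k L)
    {ι : Type} (s : Finset ι) (f : ι → L) (h : ∀ i ∈ s, f i ≠ 0) :
    P.ord (∏ i ∈ s, f i) = ∑ i ∈ s, P.ord (f i) := by
  classical
  induction s using Finset.induction_on with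
  | empty => simp [P.ord_one]
  | insert a s ha ih =>
    rw [Finset.prod_insert ha, Finset.sum_insert ha, P.ord_mul _ _ (h a (mem_insert_self a s))
      (Finset.prod_ne_zero_iff.2 fun i hi => h i (mem_insert_of_mem hi)),
      ih fun i hi => h i (mem_insert_of_mem hi)]

section deriv

variable {p : ℕ} {k L : Type} [Field k] [Field L] [Algebra k L] {P : Place k L}
  {φ : L →ₐ[k] LaurentSeries k} {D : L → LaurentSeries k}

private lemma D_zero (hD : Dv p k L P φ D) : D 0 = 0 := by
  have := hD.const 0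
  rwa [map_zero] at this

private lemma D_one (hD : Dv p k L P φ D) : D 1 = 0 := by
  have := hD.const 1
  rwa [map_one] at this

private lemma D_sub (hD : Dv p k L P φ D) (x y : L) : D (x - y) = D x - D y := by
  have h := hD.add (x - y) y
  rw [sub_add_cancel] at h
  rw [h, add_sub_cancel_right]

private lemma D_sum (hD : Dv p k L P φ D) {ι : Type} (s : Finset ι) (f : ι → L) :
    D (∑ i ∈ s, f i) = ∑ i ∈ s, D (f i) := by
  classical
  induction s using Finset.induction_on with
  | empty => simp [D_zero hD]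
  | insert a s ha ih => rw [Finset.sum_insert ha, Finset.sum_insert ha, hD.add, ih]

private lemma D_pow (hD : Dv p k L P φ D) (x : L) (n : ℕ) :
    D (x ^ n) = (n : LaurentSeries k) * φ x ^ (n - 1) * D x := by
  induction n with
  | zero => simp [D_one hD]
  | succ n ih =>
    rw [pow_succ, hD.mul, ih]
    cases n with
    | zero => simp
    | succ m =>
      simp only [Nat.add_sub_cancel, map_pow, Nat.cast_add, Nat.cast_one]
      ring

private lemma D_zpow (hD : Dv p k L P φ D) {c : L} (hc : c ≠ 0) (n : ℤ) :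
    D (c ^ n) = (n : LaurentSeries k) * φ c ^ (n - 1) * D c := by
  have hφ : φ c ≠ 0 := by
    intro h
    exact hc ((map_eq_zero φ).mp h)
  have hnat : ∀ j : ℕ, D (c ^ j) = (j : LaurentSeries k) * φ c ^ ((j : ℤ) - 1) * D c := by
    intro j
    rw [D_pow hD]
    cases j with
    | zero => simp
    | succ m =>
      congr 2
      rw [Nat.add_sub_cancel, Nat.cast_add, Nat.cast_one, add_sub_cancel_right, zpow_natCast]
  rcases Int.eq_nat_or_neg n with ⟨j, rfl | rfl⟩
  · rw [zpow_natCast, hnat j, Int.cast_natCast]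
  · have h1 := hD.mul (c ^ j) (c ^ (-(j : ℤ)))
    have h2 : c ^ j * c ^ (-(j : ℤ)) = 1 := by
      rw [zpow_neg, zpow_natCast, mul_inv_cancel₀ (pow_ne_zero j hc)]
    rw [h2, D_one hD, hnat j] at h1
    have h3 : φ (c ^ j) = φ c ^ j := map_pow φ c j
    have h4 : φ (c ^ (-(j : ℤ))) = φ c ^ (-(j : ℤ)) := map_zpow₀ φ c _
    rw [h3, h4] at h1
    have h5 : φ c ^ j ≠ 0 := pow_ne_zero j hφ
    have h6 : D (c ^ (-(j : ℤ))) =
        - (φ c ^ j)⁻¹ * (φ c ^ (-(j : ℤ)) * ((j : LaurentSeries k) * φ c ^ ((j : ℤ) - 1) * D c)) := by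
      field_simp
      linear_combination -h1
    rw [h6, Int.cast_neg, Int.cast_natCast]
    have h7 : (φ c ^ j)⁻¹ * (φ c ^ (-(j : ℤ)) * φ c ^ ((j : ℤ) - 1)) = φ c ^ (-(j : ℤ) - 1) := by
      rw [← zpow_natCast, ← zpow_neg, ← zpow_add₀ hφ, ← zpow_add₀ hφ]
      congr 1
      ring
    linear_combination (-(j : LaurentSeries k) * D c) * h7

/-- approximation by Laurent polynomials in `c` -/
private lemma approx (hD : Dv p k L P φ D) (Λ : Place k (LaurentSeries k))
    (hΛ : ∀ x : LaurentSeries k, x ≠ 0 → Λ.ord x = x.order) (Fx : Set L)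
    (hFsub : ∀ x ∈ Fx, ∀ y ∈ Fx, x - y ∈ Fx) (hFmul : ∀ x ∈ Fx, ∀ a : k, algebraMap k L a * x ∈ Fx)
    (m : ℤ) (hm : 1 ≤ m) (hdvd : ∀ x ∈ Fx, x ≠ 0 → m ∣ P.ord x) (c : L) (hc0 : c ≠ 0)
    (hc : P.ord c = m) (hcF : ∀ n : ℤ, c ^ n ∈ Fx) :
    ∀ (N : ℕ) (z : L) (n : ℤ), z ∈ Fx → z ≠ 0 → P.ord z = n * m →
      ∃ (E : LaurentSeries k) (a : k), a ≠ 0 ∧
        Λ.Ge (E - (n : LaurentSeries k) * algebraMap k (LaurentSeries k) a * φ c ^ (n - 1)) (n * m) ∧
        Λ.Ge (D z - E * D c) ((n + 1 + N) * m - 1) := by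
  have hlo : ∀ x : L, Λ.Ge (D x) (P.ord x - 1) := by
    intro x
    by_cases hx : x = 0
    · rw [hx, D_zero hD]
      exact Λ.ge_zero _
    by_cases hDx : D x = 0
    · rw [hDx]
      exact Λ.ge_zero _
    rcases hD.lo x hx with h | h
    · exact absurd h hDx
    · exact Or.inr (by rw [hΛ _ hDx]; exact h)
  have hφc : φ c ≠ 0 := by
    intro h
    exact hc0 ((map_eq_zero φ).mp h)
  have hφo : Λ.ord (φ c) = m := by rw [hΛ _ hφc, hD.ordφ c hc0, hc]
  have step : ∀ (z : L) (n : ℤ), z ∈ Fx → z ≠ 0 → P.ord z = n * m → ∃ a : k, a ≠ 0 ∧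
      z - algebraMap k L a * c ^ n ∈ Fx ∧
      (z - algebraMap k L a * c ^ n = 0 ∨ ∃ n' : ℤ, n + 1 ≤ n' ∧
        P.ord (z - algebraMap k L a * c ^ n) = n' * m) ∧
      D z = D (z - algebraMap k L a * c ^ n) +
        (n : LaurentSeries k) * algebraMap k (LaurentSeries k) a * φ c ^ (n - 1) * D c := by
    intro z n hz hz0 hzn
    have hcn : c ^ n ≠ 0 := zpow_ne_zero n hc0
    have hx0 : z / c ^ n ≠ 0 := div_ne_zero hz0 hcn
    have hxo : P.ord (z / c ^ n) = 0 := by
      rw [P.ord_div hz0 hcn, P.ord_zpow hc0, hc, hzn, sub_self]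
    obtain ⟨a, ha⟩ := P.residue (z / c ^ n) hx0 hxo.ge
    have hzc : z - algebraMap k L a * c ^ n = c ^ n * (z / c ^ n - algebraMap k L a) := by
      field_simp
    have ha0 : a ≠ 0 := by
      rintro rfl
      rw [map_zero] at ha
      rcases ha with h | h
      · exact hx0 h
      · rw [sub_zero, hxo] at h
        exact lt_irrefl _ h
    have hmem : z - algebraMap k L a * c ^ n ∈ Fx := hFsub _ hz _ (hFmul _ (hcF n) a)
    refine ⟨a, ha0, hmem, ?_, ?_⟩
    · by_cases h0 : z - algebraMap k L a * c ^ n = 0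
      · exact Or.inl h0
      · right
        obtain ⟨n', hn'⟩ := hdvd _ hmem h0
        refine ⟨n', ?_, by rw [hn']; ring⟩
        have h1 : z / c ^ n - algebraMap k L a ≠ 0 := by
          intro h
          rw [hzc, h, mul_zero] at h0
          exact h0 rfl
        have h2 : 0 < P.ord (z / c ^ n - algebraMap k L a) := by
          rcases ha with h | h
          · exact absurd (sub_eq_zero.2 h) h1
          · exact h
        have h3 : P.ord (z - algebraMap k L a * c ^ n) =
            n * m + P.ord (z / c ^ n - algebraMap k L a) := by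
          rw [hzc, P.ord_mul _ _ hcn h1, P.ord_zpow hc0, hc]
        rw [h3] at hn'
        by_contra hlt
        push Not at hlt
        have h4 : n' ≤ n := by omega
        nlinarith
    · rw [D_sub hD, hD.mul, hD.const, D_zpow hD hc0, AlgHom.commutes]
      ring
  intro N
  induction N with
  | zero =>
    intro z n hz hz0 hzn
    obtain ⟨a, ha0, _, hord, hDz⟩ := step z n hz hz0 hzn
    refine ⟨(n : LaurentSeries k) * algebraMap k (LaurentSeries k) a * φ c ^ (n - 1), a, ha0, ?_, ?_⟩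
    · rw [sub_self]
      exact Λ.ge_zero _
    · rw [hDz, add_sub_cancel_right]
      rcases hord with h | ⟨n', hn', ho⟩
      · rw [h, D_zero hD]
        exact Λ.ge_zero _
      · refine Λ.ge_mono (hlo _) ?_
        rw [ho, Nat.cast_zero, add_zero]
        nlinarith
  | succ N ih =>
    intro z n hz hz0 hzn
    obtain ⟨a, ha0, hmem, hord, hDz⟩ := step z n hz hz0 hzn
    by_cases h0 : z - algebraMap k L a * c ^ n = 0
    · refine ⟨(n : LaurentSeries k) * algebraMap k (LaurentSeries k) a * φ c ^ (n - 1), a, ha0, ?_, ?_⟩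
      · rw [sub_self]
        exact Λ.ge_zero _
      · rw [hDz, add_sub_cancel_right, h0, D_zero hD]
        exact Λ.ge_zero _
    · obtain ⟨n', hn', ho⟩ := hord.resolve_left h0
      obtain ⟨E', a', _, hE1, hE2⟩ := ih _ n' hmem h0 ho
      refine ⟨E' + (n : LaurentSeries k) * algebraMap k (LaurentSeries k) a * φ c ^ (n - 1), a,
        ha0, ?_, ?_⟩
      · rw [add_sub_cancel_right]
        have h1 : Λ.Ge ((n' : LaurentSeries k) * algebraMap k (LaurentSeries k) a' *
            φ c ^ (n' - 1)) ((n' - 1) * m) := by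
          have h2 : Λ.Ge ((n' : LaurentSeries k) * algebraMap k (LaurentSeries k) a') 0 := by
            have h3 : (n' : LaurentSeries k) * algebraMap k (LaurentSeries k) a' =
                algebraMap k (LaurentSeries k) ((n' : k) * a') := by
              rw [map_mul, map_intCast]
            rw [h3]
            exact Λ.ge_const _
          have h4 : Λ.Ge (φ c ^ (n' - 1)) ((n' - 1) * m) := by
            refine Or.inr ?_
            rw [Λ.ord_zpow hφc, hφo]
          have := Λ.ge_mul h2 h4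
          rwa [zero_add] at this
        have h5 := Λ.ge_add (Λ.ge_mono hE1 (show (n' - 1) * m ≤ n' * m by nlinarith)) h1
        rw [sub_add_cancel] at h5
        exact Λ.ge_mono h5 (by nlinarith)
      · have h6 : D z - (E' + (n : LaurentSeries k) * algebraMap k (LaurentSeries k) a *
            φ c ^ (n - 1)) * D c = D (z - algebraMap k L a * c ^ n) - E' * D c := by
          rw [hDz]
          ring
        rw [h6]
        refine Λ.ge_mono hE2 ?_
        push_cast
        nlinarith

/-- derivative of the value of a polynomial -/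
private lemma D_eval (hD : Dv p k L P φ D) (f : L[X]) (x : L) (N : ℕ) (hN : f.natDegree < N) :
    D (f.eval x) = (∑ i ∈ range N, D (f.coeff i) * φ x ^ i) + φ (f.derivative.eval x) * D x := by
  rw [Polynomial.eval_eq_sum_range' hN, D_sum hD, Polynomial.derivative_eval,
    Polynomial.sum_over_range' f (fun n => by simp) N hN, map_sum, Finset.sum_mul,
    ← Finset.sum_add_distrib]
  refine Finset.sum_congr rfl fun i _ => ?_
  rw [hD.mul, D_pow hD, map_mul, map_mul, map_pow, map_pow, map_natCast]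
  ring

end deriv

/-- a product of factors `X - a`, `a` in the maximal ideal -/
private lemma coeff_ge {k L : Type} [Field k] [Field L] [Algebra k L] (P : Place k L)
    {ι : Type} [DecidableEq ι] (s : Finset ι) (a : ι → L) (ha : ∀ i ∈ s, P.Ge (a i) 1) :
    ∀ i, P.Ge ((∏ j ∈ s, (X - C (a j))).coeff i - (if i = #s then 1 else 0)) 1 := by
  induction s using Finset.induction_on with
  | empty =>
    intro i
    rw [Finset.prod_empty, Finset.card_empty, Polynomial.coeff_one, sub_self]
    exact P.ge_zero _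
  | insert b s hb ih =>
    have ih' := ih fun i hi => ha i (mem_insert_of_mem hi)
    have hb1 : P.Ge (a b) 1 := ha b (mem_insert_self b s)
    have h0 : ∀ i, P.Ge ((∏ j ∈ s, (X - C (a j))).coeff i) 0 := by
      intro i
      have h1 : P.Ge (if i = #s then (1 : L) else 0) 0 := by
        split_ifs
        · exact Or.inr (by rw [P.ord_one])
        · exact P.ge_zero _
      have h2 := P.ge_add (P.ge_mono (ih' i) (by norm_num : (0 : ℤ) ≤ 1)) h1
      rwa [sub_add_cancel] at h2
    intro i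
    rw [Finset.prod_insert hb, Finset.card_insert_of_notMem hb, sub_mul, Polynomial.coeff_sub,
      Polynomial.coeff_C_mul]
    have h3 : P.Ge (a b * (∏ j ∈ s, (X - C (a j))).coeff i) 1 := by
      have := P.ge_mul hb1 (h0 i)
      rwa [add_zero] at this
    cases i with
    | zero =>
      rw [Polynomial.coeff_X_mul_zero, if_neg (by omega), zero_sub, sub_zero]
      exact P.ge_neg h3
    | succ i =>
      rw [Polynomial.coeff_X_mul]
      have h4 := P.ge_sub (ih' i) h3
      have h5 : (if i + 1 = #s + 1 then (1 : L) else 0) = if i = #s then 1 else 0 := by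
        simp
      rw [h5]
      have h6 : (∏ j ∈ s, (X - C (a j))).coeff i - a b * (∏ j ∈ s, (X - C (a j))).coeff (i + 1) -
          (if i = #s then (1 : L) else 0) = (∏ j ∈ s, (X - C (a j))).coeff i -
          (if i = #s then (1 : L) else 0) - a b * (∏ j ∈ s, (X - C (a j))).coeff (i + 1) := by ring
      rw [h6]
      exact h4

end DF1

open DF1 in
/-- DF1 -/
theorem df1_thm (hTOT : S_TOT) : S_DF1 := by
  intro p k L G _ _ _ _ _ P φ D ρ H z n hp hchar hinj hram hD hz0 hzfix hzn
  classical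
  have _ := hchar
  obtain ⟨Λ, hΛ⟩ := lsp_thm k
  have hFix : ∀ g ∈ H, Fixes P (ρ g) := fun g hg => (hram g hg).1
  set m : ℕ := Nat.card H with hmdef
  have hm1 : 1 ≤ m := Nat.card_pos
  set s : Finset G := univ.filter (fun g => g ∈ H) with hs
  have hcs : #s = m := by
    rw [hmdef, Nat.card_eq_fintype_card, Fintype.card_subtype]
  have h1s : (1 : G) ∈ s := by
    rw [hs, mem_filter]
    exact ⟨mem_univ _, H.one_mem⟩
  have hms : ∀ g, g ∈ s ↔ g ∈ H := by
    intro g
    rw [hs, mem_filter]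
    exact ⟨fun h => h.2, fun h => ⟨mem_univ _, h⟩⟩
  have hπ0 := P.pi_ne
  have hπo := P.ord_pi
  have hρπ0 : ∀ g : G, ρ g P.pi ≠ 0 := by
    intro g h
    exact hπ0 (by simpa using h)
  have hρπo : ∀ g ∈ H, P.ord (ρ g P.pi) = 1 := by
    intro g hg
    rw [hFix g hg _ hπ0, hπo]
  -- elements different from 1 move the uniformiser
  have hmove : ∀ g ∈ H, g ≠ 1 → P.pi - ρ g P.pi ≠ 0 := by
    intro g hg hg1 h
    let N : Subgroup G :=
      { carrier := {x | x ∈ H ∧ ρ x P.pi = P.pi}
        mul_mem' := by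
          intro a b ha hb
          refine ⟨H.mul_mem ha.1 hb.1, ?_⟩
          rw [map_mul, AlgEquiv.mul_apply, hb.2, ha.2]
        one_mem' := ⟨H.one_mem, by rw [map_one]; rfl⟩
        inv_mem' := by
          intro a ha
          refine ⟨H.inv_mem ha.1, ?_⟩
          have h2 : ρ a⁻¹ (ρ a P.pi) = P.pi := by
            rw [← AlgEquiv.mul_apply, ← map_mul, inv_mul_cancel, map_one]
            rfl
          rwa [ha.2] at h2 }
    have h2 := hTOT k L G P ρ N hinj (fun x hx => hFix x hx.1) P.pi hπ0 (fun x hx => hx.2)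
    rw [hπo] at h2
    have h3 : Nat.card N = 1 := by
      have : Nat.card N ∣ 1 := by exact_mod_cast h2
      exact Nat.dvd_one.1 this
    have h4 : g ∈ N := ⟨hg, (sub_eq_zero.1 h).symm⟩
    rw [Subgroup.card_eq_one] at h3
    rw [h3, Subgroup.mem_bot] at h4
    exact hg1 h4
  set f : L[X] := ∏ g ∈ s, (X - C (ρ g P.pi)) with hf
  have hfmonic : f.Monic := Polynomial.monic_prod_of_monic _ _ fun g _ => Polynomial.monic_X_sub_C _
  have hfdeg : f.natDegree = m := by
    rw [hf, Polynomial.natDegree_prod_of_monic _ _ fun g _ => Polynomial.monic_X_sub_C _]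
    simp [hcs]
  have hfmap : ∀ h ∈ H, f.map (ρ h : L →+* L) = f := by
    intro h hh
    rw [hf, Polynomial.map_prod]
    refine Finset.prod_equiv (Equiv.mulLeft h) ?_ ?_
    · intro g
      rw [hms, hms, Equiv.coe_mulLeft]
      exact ⟨fun hg => H.mul_mem hh hg, fun hg => (H.mul_mem_cancel_left hh).1 hg⟩
    · intro g _
      rw [Polynomial.map_sub, Polynomial.map_X, Polynomial.map_C, Equiv.coe_mulLeft, map_mul,
        AlgEquiv.mul_apply]
      rfl
  have hcfix : ∀ i, ∀ h ∈ H, ρ h (f.coeff i) = f.coeff i := by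
    intro i h hh
    have h1 := congrArg (fun q : L[X] => q.coeff i) (hfmap h hh)
    simp only [Polynomial.coeff_map] at h1
    exact h1
  have hcge : ∀ i, i < m → P.Ge (f.coeff i) 1 := by
    intro i hi
    have h1 := coeff_ge P s (fun g => ρ g P.pi) (fun g hg => Or.inr (by
      rw [hρπo g ((hms g).1 hg)])) i
    rw [if_neg (by omega), sub_zero] at h1
    exact h1
  -- the set of fixed elements
  let Fx : Set L := {x | ∀ h ∈ H, ρ h x = x}
  have hFsub : ∀ x ∈ Fx, ∀ y ∈ Fx, x - y ∈ Fx := by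
    intro x hx y hy h hh
    rw [map_sub, hx h hh, hy h hh]
  have hFmul : ∀ x ∈ Fx, ∀ a : k, algebraMap k L a * x ∈ Fx := by
    intro x hx a h hh
    rw [map_mul, hx h hh, AlgEquiv.commutes]
  have hdvd : ∀ x ∈ Fx, x ≠ 0 → (m : ℤ) ∣ P.ord x := fun x hx hx0 =>
    hTOT k L G P ρ H hinj hFix x hx0 hx
  set c : L := f.coeff 0 with hc
  have hcprod : c = ∏ g ∈ s, (-ρ g P.pi) := by
    rw [hc, Polynomial.coeff_zero_eq_eval_zero, hf, Polynomial.eval_prod]
    refine Finset.prod_congr rfl fun g _ => ?_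
    simp
  have hc0 : c ≠ 0 := by
    rw [hcprod]
    exact Finset.prod_ne_zero_iff.2 fun g _ => neg_ne_zero.2 (hρπ0 g)
  have hco : P.ord c = m := by
    rw [hcprod, ord_prod P s _ fun g _ => neg_ne_zero.2 (hρπ0 g)]
    rw [Finset.sum_congr rfl fun g hg => by rw [P.ord_neg, hρπo g ((hms g).1 hg)]]
    simp [hcs]
  have hcF : ∀ n : ℤ, c ^ n ∈ Fx := by
    intro n h hh
    rw [map_zpow₀, hcfix 0 h hh]
  have hm1' : (1 : ℤ) ≤ m := by exact_mod_cast hm1
  have happ := approx hD Λ hΛ Fx hFsub hFmul m hm1' hdvd c hc0 hco hcF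
  have hφc : φ c ≠ 0 := by
    intro h
    exact hc0 ((map_eq_zero φ).mp h)
  have hφo : Λ.ord (φ c) = m := by rw [hΛ _ hφc, hD.ordφ c hc0, hco]
  -- consequences of the approximation
  have hbig : ∀ (x : LaurentSeries k) (e : ℤ),
      (∀ N : ℕ, Λ.Ge x ((e + 1 + N) * m - 1)) → x = 0 := by
    intro x e h
    by_contra hx
    have h1 := (Λ.ge_iff hx _).1 (h (e.natAbs + (Λ.ord x).natAbs + 2))
    have h2 : ((Λ.ord x).natAbs : ℤ) + 3 ≤
        e + 1 + ((e.natAbs + (Λ.ord x).natAbs + 2 : ℕ) : ℤ) := by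
      push_cast
      have := neg_abs_le e
      linarith
    set q : ℤ := e + 1 + ((e.natAbs + (Λ.ord x).natAbs + 2 : ℕ) : ℤ) with hq
    have h3 : Λ.ord x ≤ ((Λ.ord x).natAbs : ℤ) := Int.le_natAbs
    have h4 : (0 : ℤ) ≤ ((Λ.ord x).natAbs : ℤ) := Int.natCast_nonneg _
    nlinarith
  have hmain : ∀ n : ℤ, Λ.Ge ((n : LaurentSeries k)) 0 := by
    intro n
    have : (n : LaurentSeries k) = algebraMap k (LaurentSeries k) (n : k) := by
      rw [map_intCast]
    rw [this]
    exact Λ.ge_const _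
  have hcons : D c ≠ 0 → ∀ (z : L) (n : ℤ), z ∈ Fx → z ≠ 0 → P.ord z = n * m →
      Λ.Ge (D z) ((n - 1) * m + Λ.ord (D c)) ∧
      (¬ (p : ℤ) ∣ n → D z ≠ 0 ∧ Λ.ord (D z) = (n - 1) * m + Λ.ord (D c)) := by
    intro hDc z n hz hz0 hzn
    obtain ⟨E, a, ha0, hE1, hE2⟩ := happ (Λ.ord (D c)).natAbs z n hz hz0 hzn
    have hpow : Λ.ord (φ c ^ (n - 1)) = (n - 1) * m := by
      rw [Λ.ord_zpow hφc, hφo]
    have hlead : Λ.Ge ((n : LaurentSeries k) * algebraMap k (LaurentSeries k) a *
        φ c ^ (n - 1)) ((n - 1) * m) := by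
      have h1 := Λ.ge_mul (Λ.ge_mul (hmain n) (Λ.ge_const a)) (Or.inr hpow.ge :
        Λ.Ge (φ c ^ (n - 1)) ((n - 1) * m))
      rwa [add_zero, zero_add] at h1
    have hrest : Λ.Ge (D z - E * D c) ((n - 1) * m + Λ.ord (D c) + 1) := by
      refine Λ.ge_mono hE2 ?_
      have h3 : Λ.ord (D c) ≤ ((Λ.ord (D c)).natAbs : ℤ) := Int.le_natAbs
      have h4 : (0 : ℤ) ≤ ((Λ.ord (D c)).natAbs : ℤ) := Int.natCast_nonneg _
      nlinarith
    have hE : Λ.Ge E ((n - 1) * m) := by
      have h1 := Λ.ge_add (Λ.ge_mono hE1 (show (n - 1) * (m : ℤ) ≤ n * m by nlinarith)) hlead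
      rwa [sub_add_cancel] at h1
    refine ⟨?_, ?_⟩
    · have h1 := Λ.ge_add (Λ.ge_mono hrest (show (n - 1) * (m : ℤ) + Λ.ord (D c) ≤
        (n - 1) * m + Λ.ord (D c) + 1 by omega)) (Λ.ge_mul hE (Λ.ge_ord (D c)))
      rwa [sub_add_cancel] at h1
    · intro hpn
      have hnk : (n : k) ≠ 0 := by
        intro h
        exact hpn ((CharP.intCast_eq_zero_iff k p n).1 h)
      have hne : algebraMap k (LaurentSeries k) ((n : k) * a) ≠ 0 := by
        intro h
        exact (mul_ne_zero hnk ha0) ((map_eq_zero _).1 h)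
      have heq : (n : LaurentSeries k) * algebraMap k (LaurentSeries k) a * φ c ^ (n - 1) =
          algebraMap k (LaurentSeries k) ((n : k) * a) * φ c ^ (n - 1) := by
        rw [map_mul, map_intCast]
      have hx0 : (n : LaurentSeries k) * algebraMap k (LaurentSeries k) a * φ c ^ (n - 1) ≠ 0 := by
        rw [heq]
        exact mul_ne_zero hne (zpow_ne_zero _ hφc)
      have hxo : Λ.ord ((n : LaurentSeries k) * algebraMap k (LaurentSeries k) a *
          φ c ^ (n - 1)) = (n - 1) * m := by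
        rw [heq, Λ.ord_mul _ _ hne (zpow_ne_zero _ hφc), hpow,
          Λ.ord_const _ (mul_ne_zero hnk ha0), zero_add]
      have h1 := Λ.ord_add_of_lt hx0 (Λ.ge_mono hE1 (by rw [hxo]; nlinarith))
      rw [add_sub_cancel, hxo] at h1
      have h2 : Λ.ord (E * D c) = (n - 1) * m + Λ.ord (D c) := by
        rw [Λ.ord_mul _ _ h1.1 hDc, h1.2]
      have h3 := Λ.ord_add_of_lt (mul_ne_zero h1.1 hDc) (by rw [h2]; exact hrest)
      rw [add_sub_cancel, h2] at h3
      exact h3
  -- the equation of the uniformiser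
  have hroot : f.eval P.pi = 0 := by
    rw [hf, Polynomial.eval_prod]
    refine Finset.prod_eq_zero h1s ?_
    rw [map_one]
    simp
  have hder : f.derivative.eval P.pi = ∏ g ∈ s.erase 1, (P.pi - ρ g P.pi) := by
    rw [hf, Polynomial.derivative_prod_finset, Polynomial.eval_finsetSum,
      Finset.sum_eq_single_of_mem (1 : G) h1s]
    · rw [Polynomial.eval_mul, Polynomial.eval_prod]
      simp
    · intro b hb hb1
      rw [Polynomial.eval_mul, Polynomial.eval_prod]
      rw [Finset.prod_eq_zero (Finset.mem_erase.2 ⟨hb1.symm, h1s⟩), zero_mul]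
      rw [map_one]
      simp
  have hmove' : ∀ g ∈ s.erase 1, P.pi - ρ g P.pi ≠ 0 := by
    intro g hg
    rw [Finset.mem_erase] at hg
    exact hmove g ((hms g).1 hg.2) hg.1
  have hdero : P.ord (f.derivative.eval P.pi) =
      sm (fun g => P.b (ρ g)) {h | h ∈ H ∧ h ≠ 1} + (m - 1) := by
    rw [hder, ord_prod P _ _ hmove']
    have h1 : ∀ g ∈ s.erase 1, P.ord (P.pi - ρ g P.pi) = P.b (ρ g) + 1 := by
      intro g _
      have : P.pi - ρ g P.pi = -(ρ g P.pi - P.pi) := by ring
      rw [this, P.ord_neg, Place.b]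
      ring
    rw [Finset.sum_congr rfl h1, Finset.sum_add_distrib, Finset.sum_const, Finset.card_erase_of_mem
      h1s, hcs, sm, nsmul_eq_mul, mul_one, Nat.cast_sub hm1, Nat.cast_one]
    congr 1
    refine Finset.sum_congr ?_ fun _ _ => rfl
    ext g
    rw [mem_erase, hms]
    simp only [Finset.mem_filter, Finset.mem_univ, true_and]
    exact ⟨fun h => ⟨h.2, h.1⟩, fun h => ⟨h.2, h.1⟩⟩
  have hderne : f.derivative.eval P.pi ≠ 0 := by
    rw [hder]
    exact Finset.prod_ne_zero_iff.2 hmove'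
  have hDπ := hD.eq P.pi hπ0 (by
    rw [hπo]
    intro h
    have := Int.le_of_dvd one_pos h
    have := hp.two_le
    omega)
  rw [hπo, sub_self] at hDπ
  have hφd : φ (f.derivative.eval P.pi) ≠ 0 := by
    intro h
    exact hderne ((map_eq_zero φ).mp h)
  have heqn := D_eval hD f P.pi (m + 1) (by rw [hfdeg]; exact Nat.lt_succ_self m)
  rw [hroot, D_zero hD, Finset.sum_range_succ] at heqn
  have hlc : f.coeff m = 1 := by
    rw [← hfdeg]
    exact hfmonic
  rw [hlc, D_one hD, zero_mul, add_zero] at heqn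
  set T : LaurentSeries k := ∑ i ∈ range m, D (f.coeff i) * φ P.pi ^ i with hT
  have hTne : T ≠ 0 := by
    intro h
    rw [h, zero_add] at heqn
    exact mul_ne_zero hφd hDπ.1 heqn.symm
  have hTo : Λ.ord T = sm (fun g => P.b (ρ g)) {h | h ∈ H ∧ h ≠ 1} + (m - 1) := by
    have h1 : T = -(φ (f.derivative.eval P.pi) * D P.pi) := by linear_combination -heqn
    rw [h1, Λ.ord_neg, Λ.ord_mul _ _ hφd hDπ.1, hΛ _ hφd, hD.ordφ _ hderne, hdero, hΛ _ hDπ.1,
      hDπ.2, add_zero]
  -- orders of the coefficients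
  have hcn : ∀ i, i < m → f.coeff i ≠ 0 → ∃ n' : ℤ, 1 ≤ n' ∧ P.ord (f.coeff i) = n' * m := by
    intro i hi h0
    obtain ⟨n', hn'⟩ := hdvd _ (hcfix i) h0
    have h1 := (P.ge_iff h0 _).1 (hcge i hi)
    refine ⟨n', ?_, by rw [hn']; ring⟩
    by_contra hlt
    push Not at hlt
    have h2 : n' ≤ 0 := by omega
    rw [hn'] at h1
    nlinarith
  have hDc : D c ≠ 0 := by
    intro hDc
    apply hTne
    rw [hT]
    refine Finset.sum_eq_zero fun i hi => ?_
    rw [mem_range] at hi
    have h0 : D (f.coeff i) = 0 := by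
      by_cases h0 : f.coeff i = 0
      · rw [h0, D_zero hD]
      · obtain ⟨n', _, hn'⟩ := hcn i hi h0
        refine hbig _ n' fun N => ?_
        obtain ⟨E, a, _, _, hE⟩ := happ N _ n' (hcfix i) h0 hn'
        rwa [hDc, mul_zero, sub_zero] at hE
    rw [h0, zero_mul]
  have hcons' := hcons hDc
  have hφπ : Λ.ord (φ P.pi) = 1 := by
    have h : φ P.pi ≠ 0 := by
      intro h
      exact hπ0 ((map_eq_zero φ).mp h)
    rw [hΛ _ h, hD.ordφ _ hπ0, hπo]
  have hφπ0 : φ P.pi ≠ 0 := by
    intro h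
    exact hπ0 ((map_eq_zero φ).mp h)
  have hDcT : Λ.ord T = Λ.ord (D c) := by
    have h1 : T = D c + ∑ i ∈ (range m).erase 0, D (f.coeff i) * φ P.pi ^ i := by
      rw [hT, ← Finset.add_sum_erase _ _ (mem_range.2 hm1), pow_zero, mul_one]
    rw [h1]
    refine (Λ.ord_add_of_lt hDc ?_).2
    refine Λ.ge_sum _ _ _ fun i hi => ?_
    rw [mem_erase, mem_range] at hi
    have h2 : Λ.Ge (D (f.coeff i)) (Λ.ord (D c)) := by
      by_cases h0 : f.coeff i = 0
      · rw [h0, D_zero hD]
        exact Λ.ge_zero _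
      · obtain ⟨n', h1', hn'⟩ := hcn i hi.2 h0
        refine Λ.ge_mono (hcons' _ n' (hcfix i) h0 hn').1 ?_
        nlinarith
    have h3 : Λ.Ge (φ P.pi ^ i) 1 := by
      refine Or.inr ?_
      rw [Λ.ord_pow hφπ0, hφπ, mul_one]
      have : 1 ≤ i := Nat.one_le_iff_ne_zero.2 hi.1
      exact_mod_cast this
    exact Λ.ge_mul h2 h3
  have hd : Λ.ord (D c) = sm (fun g => P.b (ρ g)) {h | h ∈ H ∧ h ≠ 1} + (m - 1) := by
    rw [← hDcT, hTo]
  have hres := hcons' z n hzfix hz0 hzn
  have hval : (n - 1) * (m : ℤ) + Λ.ord (D c) =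
      P.ord z - 1 + sm (fun g => P.b (ρ g)) {h | h ∈ H ∧ h ≠ 1} := by
    rw [hd, hzn]
    ring
  rw [hval] at hres
  refine ⟨?_, ?_⟩
  · rcases hres.1 with h | h
    · exact Or.inl h
    · by_cases h0 : D z = 0
      · exact Or.inl h0
      · right
        rwa [hΛ _ h0] at h
  · intro hpn
    have h := hres.2 hpn
    refine ⟨h.1, ?_⟩
    rw [← hΛ _ h.1]
    exact h.2

end Pool.CND
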